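import Pool.Agent.W163.P3.CStm

set_option autoImplicit false
set_option maxRecDepth 100000
open Finset

namespace Pool.Agent.W427.P3

open Pool.Agent.W163.P3 Pool.Agent.W163.P3.Cert

theorem nr_even : ∀ R < 3, nr (2 * R) = 140737488355328 + 2 * nn R := by decide +kernel
theorem nr_odd : ∀ R < 3, nr (2 * R + 1) + 3 * nn R = 140737488355328 := by decide +kernel
theorem pb_pc : ∀ x < 3, ∀ y < 3, ∀ z < 3, pb (cd x y z) = pc x y z := by decide +kernel
theorem pc_le : ∀ x < 3, ∀ y < 3, ∀ z < 3, pc x y z ≤ 1 := by decide +kernel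
theorem gd_lt : ∀ R < 3, ∀ x < 3, ∀ y < 3, gd R (kk x y) < 3 := by decide +kernel

theorem Pr_lt' {d e : ℕ} (h : Pr d e) : d < 3 := by
  rcases h with ⟨rfl, rfl⟩ | ⟨rfl, rfl⟩ | ⟨rfl, rfl⟩ <;> norm_num

/-- indicator -/
def ind (x m : ℕ) : ℝ := if x = m then 1 else 0

theorem gg_ind (R k1 k2 k3 : ℕ) (h1 : gd R k1 < 3) (h2 : gd R k2 < 3) (h3 : gd R k3 < 3)
    (A B : ℕ) :
    ((cond (gg R k1 k2 k3) A B : ℕ) : ℝ) = (B : ℝ) +
      (ind (gd R k1) 1 * ind (gd R k2) 1 * ind (gd R k3) 1 +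
        ind (gd R k1) 2 * ind (gd R k2) 2 * ind (gd R k3) 2) * ((A : ℝ) - B) := by
  unfold gg
  generalize gd R k1 = x at *
  generalize gd R k2 = y at *
  generalize gd R k3 = z at *
  interval_cases x <;> interval_cases y <;> interval_cases z <;> simp [ind] <;> rfl

theorem sum_ind {V : Type} [Fintype V] (g : V → ℕ) (m : ℕ) (f : V → V → V → ℝ) :
    ∑ c, ∑ d, ∑ e, (ind (g c) m * ind (g d) m * ind (g e) m) * f c d e =
      ∑ c ∈ univ.filter (fun w => g w = m), ∑ d ∈ univ.filter (fun w => g w = m),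
        ∑ e ∈ univ.filter (fun w => g w = m), f c d e := by
  simp only [sum_filter]
  refine sum_congr rfl fun c _ => ?_
  by_cases hc : g c = m
  · rw [if_pos hc]
    refine sum_congr rfl fun d _ => ?_
    by_cases hd : g d = m
    · rw [if_pos hd]
      refine sum_congr rfl fun e _ => ?_
      by_cases he : g e = m
      · simp [ind, hc, hd, he]
      · simp [ind, he]
    · rw [if_neg hd]
      simp [ind, hd]
  · rw [if_neg hc]
    simp [ind, hc]

theorem FR_eq {V : Type} (r : V → V → ℕ) (hl : ∀ x y, r x y < 3) (a b c d e : V) :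
    ((FR r a b c d e : ℕ) : ℝ) = 140737488355328 + (nn (r a b) : ℝ) *
      ((ind (gd (r a b) (kk (r a c) (r b c))) 1 * ind (gd (r a b) (kk (r a d) (r b d))) 1 *
        ind (gd (r a b) (kk (r a e) (r b e))) 1) * (2 - 5 * (pc (r c d) (r c e) (r d e) : ℝ)) +
      (ind (gd (r a b) (kk (r a c) (r b c))) 2 * ind (gd (r a b) (kk (r a d) (r b d))) 2 *
        ind (gd (r a b) (kk (r a e) (r b e))) 2) * (2 - 5 * (pc (r c d) (r c e) (r d e) : ℝ))) := by
  unfold FR rv
  rw [gg_ind _ _ _ _ (gd_lt _ (hl _ _) _ (hl _ _) _ (hl _ _))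
    (gd_lt _ (hl _ _) _ (hl _ _) _ (hl _ _)) (gd_lt _ (hl _ _) _ (hl _ _) _ (hl _ _)),
    pb_pc _ (hl _ _) _ (hl _ _) _ (hl _ _)]
  have h1 : ((nr (Nat.add (Nat.mul 2 (r a b)) (pc (r c d) (r c e) (r d e))) : ℕ) : ℝ) =
      140737488355328 + (nn (r a b) : ℝ) * (2 - 5 * (pc (r c d) (r c e) (r d e) : ℝ)) := by
    have h2 := pc_le _ (hl c d) _ (hl c e) _ (hl d e)
    have h3 : pc (r c d) (r c e) (r d e) = 0 ∨ pc (r c d) (r c e) (r d e) = 1 := by omega
    show ((nr (2 * (r a b) + pc (r c d) (r c e) (r d e)) : ℕ) : ℝ) = _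
    rcases h3 with h | h
    · rw [h, add_zero, nr_even _ (hl a b)]
      push_cast
      ring
    · rw [h]
      have h4 : ((nr (2 * r a b + 1) : ℕ) : ℝ) + 3 * (nn (r a b) : ℝ) = 140737488355328 := by
        exact_mod_cast nr_odd _ (hl a b)
      push_cast
      linarith
  rw [h1]
  push_cast
  ring

theorem FS_eq {V : Type} (r : V → V → ℕ) (hl : ∀ x y, r x y < 3) (a b c d e : V) :
    ((FS r a b c d e : ℕ) : ℝ) = (nn (r a b) : ℝ) *
      ((ind (gd (r a b) (kk (r a c) (r b c))) 1 * ind (gd (r a b) (kk (r a d) (r b d))) 1 *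
        ind (gd (r a b) (kk (r a e) (r b e))) 1) * 1 +
      (ind (gd (r a b) (kk (r a c) (r b c))) 2 * ind (gd (r a b) (kk (r a d) (r b d))) 2 *
        ind (gd (r a b) (kk (r a e) (r b e))) 2) * 1) := by
  unfold FS rs
  rw [gg_ind _ _ _ _ (gd_lt _ (hl _ _) _ (hl _ _) _ (hl _ _))
    (gd_lt _ (hl _ _) _ (hl _ _) _ (hl _ _)) (gd_lt _ (hl _ _) _ (hl _ _) _ (hl _ _))]
  push_cast
  ring

theorem sum_pc {V : Type} [Fintype V] (r : V → V → ℕ) (X : Finset V) :
    ∑ c ∈ X, ∑ d ∈ X, ∑ e ∈ X, (2 - 5 * (pc (r c d) (r c e) (r d e) : ℝ)) =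
      2 * (X.card : ℝ) ^ 3 - 5 * (TS r X : ℝ) := by
  unfold TS
  push_cast
  simp only [sum_sub_distrib, sum_const, nsmul_eq_mul, ← mul_sum]
  ring

theorem e5_conv {V : Type} [Fintype V] (F : V → V → V → V → V → ℕ) :
    ∑ x : Fin 5 → V, F (x 0) (x 1) (x 2) (x 3) (x 4)
      = ∑ a, ∑ b, ∑ c, ∑ d, ∑ e, F a b c d e := by
  let e5 : (Fin 5 → V) ≃ V × V × V × V × V :=
    { toFun := fun x => (x 0, x 1, x 2, x 3, x 4)
      invFun := fun p => ![p.1, p.2.1, p.2.2.1, p.2.2.2.1, p.2.2.2.2]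
      left_inv := fun x => by funext i; fin_cases i <;> rfl
      right_inv := fun p => rfl }
  rw [← Equiv.sum_comp e5.symm]
  simp only [Fintype.sum_prod_type]
  rfl

theorem t_REC : S_REC := by
  intro V _ _ r hr p hp
  have hl : ∀ x y, r x y < 3 := fun x y => Pr_lt' (hr x y)
  rw [e5_conv, e5_conv]
  push_cast
  have e1 : (140737488355328 : ℝ) * Fintype.card V ^ 5
      = ∑ a : V, ∑ b : V, (140737488355328 * (Fintype.card V : ℝ) ^ 3) := by
    simp only [Finset.sum_const, Finset.card_univ, nsmul_eq_mul]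
    ring
  rw [e1]
  simp only [mul_sum]
  rw [← sum_sub_distrib]
  refine sum_le_sum fun a _ => ?_
  rw [← sum_sub_distrib]
  refine sum_le_sum fun b _ => ?_
  simp only [FR_eq r hl, FS_eq r hl]
  set g : V → ℕ := fun w => gd (r a b) (kk (r a w) (r b w)) with hg
  have key : ∀ f : V → V → V → ℝ, ∑ c, ∑ d, ∑ e, (nn (r a b) : ℝ) *
      ((ind (g c) 1 * ind (g d) 1 * ind (g e) 1) * f c d e +
      (ind (g c) 2 * ind (g d) 2 * ind (g e) 2) * f c d e) =
      (nn (r a b) : ℝ) *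
      ((∑ c ∈ univ.filter (fun w => g w = 1), ∑ d ∈ univ.filter (fun w => g w = 1),
        ∑ e ∈ univ.filter (fun w => g w = 1), f c d e) +
      (∑ c ∈ univ.filter (fun w => g w = 2), ∑ d ∈ univ.filter (fun w => g w = 2),
        ∑ e ∈ univ.filter (fun w => g w = 2), f c d e)) := by
    intro f
    simp only [← mul_sum, sum_add_distrib]
    rw [sum_ind g 1 f, sum_ind g 2 f]
  have k1 := key (fun c d e => 2 - 5 * (pc (r c d) (r c e) (r d e) : ℝ))
  have k2 := key (fun _ _ _ => 1)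
  rw [sum_pc, sum_pc] at k1
  have k3 : ∀ X : Finset V, ∑ _c ∈ X, ∑ _d ∈ X, ∑ _e ∈ X, (1 : ℝ) = (X.card : ℝ) ^ 3 := by
    intro X
    simp only [sum_const, nsmul_eq_mul]
    ring
  rw [k3, k3] at k2
  have s1 : ∑ c, ∑ d, ∑ e, (140737488355328 + (nn (r a b) : ℝ) *
      ((ind (g c) 1 * ind (g d) 1 * ind (g e) 1) * (2 - 5 * (pc (r c d) (r c e) (r d e) : ℝ)) +
      (ind (g c) 2 * ind (g d) 2 * ind (g e) 2) *
        (2 - 5 * (pc (r c d) (r c e) (r d e) : ℝ)))) =
      140737488355328 * (Fintype.card V : ℝ) ^ 3 + (nn (r a b) : ℝ) *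
      ((2 * ((univ.filter (fun w => g w = 1)).card : ℝ) ^ 3 -
        5 * (TS r (univ.filter (fun w => g w = 1)) : ℝ)) +
      (2 * ((univ.filter (fun w => g w = 2)).card : ℝ) ^ 3 -
        5 * (TS r (univ.filter (fun w => g w = 2)) : ℝ))) := by
    rw [← k1]
    simp only [sum_add_distrib (f := fun _ => (140737488355328 : ℝ)), sum_const, card_univ,
      nsmul_eq_mul, sum_add_distrib (s := (univ : Finset V))
        (f := fun _ => (Fintype.card V : ℝ) * (140737488355328 : ℝ))]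
    simp only [sum_add_distrib]
    simp only [sum_const, card_univ, nsmul_eq_mul]
    ring
  have s2 : ∑ c, ∑ d, ∑ e, ((5 * p - 2) * ((nn (r a b) : ℝ) *
      ((ind (g c) 1 * ind (g d) 1 * ind (g e) 1) * 1 +
      (ind (g c) 2 * ind (g d) 2 * ind (g e) 2) * 1))) = (5 * p - 2) * ((nn (r a b) : ℝ) *
      (((univ.filter (fun w => g w = 1)).card : ℝ) ^ 3 +
        ((univ.filter (fun w => g w = 2)).card : ℝ) ^ 3)) := by
    rw [← k2]
    simp only [← mul_sum]
  have s3 := hp (univ.filter (fun w => g w = 1))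
  have s4 := hp (univ.filter (fun w => g w = 2))
  have s5 : (0 : ℝ) ≤ nn (r a b) := Nat.cast_nonneg _
  calc _ = 140737488355328 * (Fintype.card V : ℝ) ^ 3 - (5 * p - 2) * ((nn (r a b) : ℝ) *
      (((univ.filter (fun w => g w = 1)).card : ℝ) ^ 3 +
        ((univ.filter (fun w => g w = 2)).card : ℝ) ^ 3)) := by rw [← s2]
    _ ≤ 140737488355328 * (Fintype.card V : ℝ) ^ 3 + (nn (r a b) : ℝ) *
      ((2 * ((univ.filter (fun w => g w = 1)).card : ℝ) ^ 3 -
        5 * (TS r (univ.filter (fun w => g w = 1)) : ℝ)) +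
      (2 * ((univ.filter (fun w => g w = 2)).card : ℝ) ^ 3 -
        5 * (TS r (univ.filter (fun w => g w = 2)) : ℝ))) := by
        have := mul_le_mul_of_nonneg_left (add_le_add s3 s4) s5
        nlinarith
    _ = _ := by rw [← s1]

end Pool.Agent.W427.P3
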